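import Mathlib

set_option autoImplicit false
open MvPolynomial

namespace Pool.Agent.Results.MP_07d99b_al.Three

noncomputable def P : Fin 3 → MvPolynomial (Fin 3) ℝ :=
  ![X 0 + X 2, X 0 * X 1, X 0 ^ 3 - X 0 * X 1 ^ 2 + X 0 + X 2]

noncomputable def e (a b c : ℕ) : Fin 3 →₀ ℕ := Finsupp.equivFunOnFinite.symm ![a, b, c]

lemma e_inj {a b c a' b' c' : ℕ} : e a b c = e a' b' c' ↔ a = a' ∧ b = b' ∧ c = c' := by
  simp [e]

lemma mon (a b c : ℕ) :
    (monomial (e a b c) 1 : MvPolynomial (Fin 3) ℝ) = X 0 ^ a * X 1 ^ b * X 2 ^ c := by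
  rw [monomial_eq, Finsupp.prod_fintype _ _ (by simp)]
  simp [e, Fin.prod_univ_three]

lemma P0 : P 0 = monomial (e 1 0 0) 1 + monomial (e 0 0 1) 1 := by simp [P, mon]
lemma P1 : P 1 = monomial (e 1 1 0) 1 := by simp [P, mon]
lemma P2 : P 2 = monomial (e 3 0 0) 1 - monomial (e 1 2 0) 1 + monomial (e 1 0 0) 1 +
    monomial (e 0 0 1) 1 := by simp [P, mon]

lemma mem_vars' (i : Fin 3) (a b c : ℕ) (j : Fin 3) (h : coeff (e a b c) (P i) ≠ 0)
    (h' : ![a, b, c] j ≠ 0) : j ∈ (P i).vars :=
  (mem_vars_iff_mem_support j).2 ⟨e a b c, mem_support_iff.2 h, Finsupp.mem_support_iff.2 h'⟩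

theorem result : ∃ (n : ℕ) (p : Fin n → MvPolynomial (Fin n) ℝ), 1 ≤ n ∧
    Function.Surjective (fun (x : Fin n → ℝ) (i : Fin n) => eval x (p i)) ∧
    (∀ i, eval 0 (p i) = 0) ∧
    (∀ i, (p i).totalDegree ≤ i.1 + 1) ∧
    {x : Fin n → ℝ | ∀ i, eval x (p i) = 0}.Infinite ∧
    (∀ s : Finset (Fin n), 1 ≤ s.card → s.card < n →
      s.card + 1 ≤ (s.biUnion fun i => (p i).vars).card) ∧
    ∀ i m, coeff m (p i) ≠ 0 → coeff m (p i) = 1 ∨ coeff m (p i) = -1 := by
  refine ⟨3, P, by norm_num, fun y => ?_, fun i => ?_, fun i => ?_, ?_, fun s h1 h2 => ?_,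
    fun i m => ?_⟩
  · have key : ∀ s t : ℝ, ∃ u v : ℝ, u * v = s ∧ u ^ 3 - u * v ^ 2 = t := by
      intro s t
      by_cases hs : s = 0
      · obtain ⟨u, hu⟩ := (show ∃ u : ℝ, u ^ 3 = t from by
          rcases le_total 0 t with h | h
          · exact ⟨t ^ ((3 : ℕ) : ℝ)⁻¹, Real.rpow_inv_natCast_pow h (by norm_num)⟩
          · refine ⟨-((-t) ^ ((3 : ℕ) : ℝ)⁻¹), ?_⟩
            rw [Odd.neg_pow (by decide), Real.rpow_inv_natCast_pow (by linarith) (by norm_num),
              neg_neg])
        exact ⟨u, 0, by simp [hs], by simpa using hu⟩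
      · have hc : ContinuousOn (fun u : ℝ => u ^ 4 - t * u - s ^ 2)
            (Set.Icc 0 (|t| + s ^ 2 + 1)) := by fun_prop
        have h0 := abs_nonneg t
        have h1 : 0 < s ^ 2 := by positivity
        obtain ⟨u, -, hu⟩ := intermediate_value_Icc (by positivity) hc (a := 0) (show (0 : ℝ) ∈ _ from
          ⟨by simp; positivity, by
            have h2 := le_abs_self t
            set T := |t| + s ^ 2 + 1 with hT
            have h3 : 1 ≤ T := by linarith
            have h4 : T ^ 2 ≤ T ^ 4 := pow_le_pow_right₀ h3 (by norm_num)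
            nlinarith⟩)
        have hu0 : u ≠ 0 := by
          rintro rfl
          simp at hu
          exact hs hu
        refine ⟨u, s / u, by field_simp, ?_⟩
        simp only at hu
        field_simp
        linarith
    obtain ⟨u, v, h1, h2⟩ := key (y 1) (y 2 - y 0)
    refine ⟨![u, v, y 0 - u], funext fun i => ?_⟩
    fin_cases i <;> simp [P, h1, h2]
  · fin_cases i <;> simp [P]
  · have hm : ∀ a b c, (monomial (e a b c) (1 : ℝ)).totalDegree = a + b + c := by
      intro a b c
      rw [totalDegree_monomial _ one_ne_zero, Finsupp.sum_fintype _ _ (by simp)]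
      simp [e, Fin.sum_univ_three]
    fin_cases i
    · change (P 0).totalDegree ≤ 1
      rw [P0]
      exact (totalDegree_add _ _).trans (by simp [hm])
    · change (P 1).totalDegree ≤ 2
      rw [P1, hm]
    · change (P 2).totalDegree ≤ 3
      rw [P2]
      refine (totalDegree_add _ _).trans (max_le ((totalDegree_add _ _).trans (max_le
        ((totalDegree_sub _ _).trans ?_) ?_)) ?_) <;> simp [hm]
  · refine Set.infinite_of_injective_forall_mem (f := fun t : ℝ => ![0, t, 0])
      (fun a b h => congrFun h 1) fun t i => ?_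
    fin_cases i <;> simp [P]
  · have a0 := mem_vars' 0 1 0 0 0 (by simp [P0, coeff_monomial, e_inj]) (by simp)
    have a2 := mem_vars' 0 0 0 1 2 (by simp [P0, coeff_monomial, e_inj]) (by simp)
    have b0 := mem_vars' 1 1 1 0 0 (by simp [P1]) (by simp)
    have b1 := mem_vars' 1 1 1 0 1 (by simp [P1]) (by simp)
    have c0 := mem_vars' 2 3 0 0 0 (by simp [P2, coeff_monomial, e_inj]) (by simp)
    have c1 := mem_vars' 2 1 2 0 1 (by simp [P2, coeff_monomial, e_inj]) (by simp)
    have c2 := mem_vars' 2 0 0 1 2 (by simp [P2, coeff_monomial, e_inj]) (by simp)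
    have hv : ∀ i, (![{0, 2}, {0, 1}, {0, 1, 2}] i : Finset (Fin 3)) ⊆ (P i).vars := by
      intro i
      fin_cases i <;> simp [Finset.insert_subset_iff, *]
    refine le_trans ?_ (Finset.card_le_card (Finset.biUnion_mono fun i _ => hv i))
    revert s
    decide
  · fin_cases i
    · change coeff m (P 0) ≠ 0 → coeff m (P 0) = 1 ∨ coeff m (P 0) = -1
      simp only [P0, coeff_add, coeff_monomial]
      by_cases h3 : e 1 0 0 = m
      · simp [← h3, e_inj]
      by_cases h4 : e 0 0 1 = m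
      · simp [← h4, e_inj]
      simp [h3, h4]
    · change coeff m (P 1) ≠ 0 → coeff m (P 1) = 1 ∨ coeff m (P 1) = -1
      simp only [P1, coeff_monomial]
      split_ifs <;> simp
    · change coeff m (P 2) ≠ 0 → coeff m (P 2) = 1 ∨ coeff m (P 2) = -1
      simp only [P2, coeff_add, coeff_sub, coeff_monomial]
      by_cases h1 : e 3 0 0 = m
      · simp [← h1, e_inj]
      by_cases h2 : e 1 2 0 = m
      · simp [← h2, e_inj]
      by_cases h3 : e 1 0 0 = m
      · simp [← h3, e_inj]
      by_cases h4 : e 0 0 1 = m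
      · simp [← h4, e_inj]
      simp [h1, h2, h3, h4]

end Pool.Agent.Results.MP_07d99b_al.Three
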